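import Pool.Agent.E8helper75.Mom2

/-!
# Pfaffians of Motzkin, Delannoy, Schröder and Narayana sequences

The skew-symmetric matrix `(j - i) μ_{i+j-3}` is the Gram matrix of the form `L (p q' - p' q)` in
the basis of the monomials, where `L` is the functional with moments `μ`. For the semicircle law
(Motzkin, Schröder, Narayana) this form is tridiagonal in the basis of the Chebyshev polynomials of
the first kind, for the arcsine law (Delannoy) in the basis of the primitives of these polynomials.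
-/

set_option autoImplicit false

namespace Pool.Agent.Results.MP_c5a58e_co.PfaffiansH75

open Finset Polynomial

/-- The Catalan numbers `C_k = binom(2k, k) / (k + 1)`. -/
def catalanQ (k : ℕ) : ℚ := 1 / ((k : ℚ) + 1) * ((2 * k).choose k : ℚ)

/-- The Motzkin numbers `M_n = ∑_{k=0}^n binom(n, 2k) C_k`. -/
def motzkin (n : ℕ) : ℚ := ∑ k ∈ range (n + 1), (n.choose (2 * k) : ℚ) * catalanQ k

/-- The central Delannoy numbers `D_n = ∑_{k=0}^n binom(n, k) binom(n+k, k)`. -/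
def delannoy (n : ℕ) : ℚ := ∑ k ∈ range (n + 1), (n.choose k : ℚ) * ((n + k).choose k : ℚ)

/-- The Schröder numbers `S_n = ∑_{k=0}^n binom(n+k, 2k) C_k`. -/
def schroeder (n : ℕ) : ℚ := ∑ k ∈ range (n + 1), ((n + k).choose (2 * k) : ℚ) * catalanQ k

/-- The Narayana polynomials `N_0 = 1`, `N_n = ∑_{k=0}^n (1/n) binom(n, k) binom(n, k-1) a^k` for
`n ≥ 1`, where `binom(n, -1) = 0` and `a` is the variable `X`. -/
noncomputable def narayana (n : ℕ) : ℚ[X] :=
  if n = 0 then 1 else ∑ k ∈ range (n + 1), C ((1 / (n : ℚ)) * (n.choose k : ℚ) *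
    (if k = 0 then 0 else (n.choose (k - 1) : ℚ))) * X ^ k

/-- The matrix `((j - i) x_{i+j-s})`, `1 ≤ i, j ≤ 2n` (the row with number `i` has index `i - 1` in
`Fin (2 * n)`; for `s = 3` the entry `i = j = 1` is `0 * x 0 = 0`). -/
def skewHankel {R : Type} [CommRing R] (x : ℕ → R) (s n : ℕ) :
    Matrix (Fin (2 * n)) (Fin (2 * n)) R :=
  Matrix.of fun i j => (((j.val + 1 : ℕ) : R) - ((i.val + 1 : ℕ) : R)) *
    x ((i.val + 1) + (j.val + 1) - s)

/-- The Pfaffian
`Pf A = 1 / (2^n n!) ∑_{σ ∈ S_{2n}} sgn(σ) ∏_{i=1}^n a_{σ(2i-1) σ(2i)}`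
(the indices `2i - 1`, `2i` are `2 i'` and `2 i' + 1` in `Fin (2 * n)`, where `i = i' + 1`). -/
noncomputable def Pf {R : Type} [CommRing R] [Algebra ℚ R] {n : ℕ}
    (A : Matrix (Fin (2 * n)) (Fin (2 * n)) R) : R :=
  (1 / (2 ^ n * (n.factorial : ℚ))) • ∑ σ : Equiv.Perm (Fin (2 * n)),
    ((Equiv.Perm.sign σ : ℤ) : R) *
      ∏ i : Fin n, A (σ ⟨2 * i.val, by omega⟩) (σ ⟨2 * i.val + 1, by omega⟩)

section proof

open Pool.Agent.E8helper75.Pf

variable {R : Type} [CommRing R] [Algebra ℚ R] {n : ℕ}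

lemma Pf_eq (A : Matrix (Fin (2 * n)) (Fin (2 * n)) R) (c : R)
    (h : pfSum A = ((n.factorial * 2 ^ n : ℕ) : R) * c) : Pf A = c := by
  change (1 / (2 ^ n * (n.factorial : ℚ))) • pfSum A = c
  rw [h]
  have h1 : ((n.factorial * 2 ^ n : ℕ) : R) * c = ((n.factorial * 2 ^ n : ℕ) : ℚ) • c := by
    rw [Algebra.smul_def, map_natCast]
  rw [h1, smul_smul]
  have h2 : (1 / (2 ^ n * (n.factorial : ℚ))) * ((n.factorial * 2 ^ n : ℕ) : ℚ) = 1 := by
    have : (n.factorial : ℚ) ≠ 0 := by exact_mod_cast n.factorial_ne_zero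
    push_cast
    field_simp
  rw [h2, one_smul]

omit [Algebra ℚ R] in
lemma pfSum_smul (c : R) (A : Matrix (Fin (2 * n)) (Fin (2 * n)) R) :
    pfSum (c • A) = c ^ n * pfSum A := by
  unfold pfSum
  rw [Finset.mul_sum]
  refine Finset.sum_congr rfl fun σ _ => ?_
  simp only [Matrix.smul_apply, smul_eq_mul]
  rw [Finset.prod_mul_distrib, Finset.prod_const, Finset.card_univ, Fintype.card_fin]
  ring

omit [Algebra ℚ R] in
lemma skew3 (x : ℕ → R) (L : R[X] →ₗ[R] R) (h : ∀ m, x m = L (X ^ m)) (n : ℕ) :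
    skewHankel x 3 n = hk L n := by
  ext i j
  simp only [skewHankel, hk, Matrix.of_apply]
  rw [h]
  push_cast
  congr 1
  · ring
  · congr 2
    omega

omit [Algebra ℚ R] in
lemma skew2 (x : ℕ → R) (c : R) (L : R[X] →ₗ[R] R) (h : ∀ m, x (m + 1) = c * L (X ^ m)) (n : ℕ) :
    skewHankel x 2 n = c • hk L n := by
  ext i j
  simp only [skewHankel, hk, Matrix.of_apply, Matrix.smul_apply, smul_eq_mul]
  rcases Nat.eq_zero_or_pos (i.val + j.val) with h0 | h0
  · have hi : i.val = 0 := by omega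
    have hj : j.val = 0 := by omega
    rw [hi, hj]
    simp
  · rw [show i.val + 1 + (j.val + 1) - 2 = (i.val + j.val - 1) + 1 by omega, h]
    push_cast
    ring

end proof

open Pool.Agent.E8helper75.Pf in
/-- All four Pfaffian evaluations hold for all `n ≥ 1`. -/
theorem result : ∀ n : ℕ, 1 ≤ n →
    Pf (skewHankel motzkin 3 n) = ∏ k ∈ range n, (4 * (k : ℚ) + 1) ∧
    Pf (skewHankel delannoy 3 n) =
      2 ^ (n ^ 2 - 1) * (2 * (n : ℚ) - 1) * ∏ k ∈ Ico 1 n, (4 * (k : ℚ) - 1) ∧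
    Pf (skewHankel schroeder 2 n) = 2 ^ (n ^ 2) * ∏ k ∈ range n, (4 * (k : ℚ) + 1) ∧
    Pf (skewHankel narayana 2 n) = X ^ (n ^ 2) * ∏ k ∈ range n, (4 * (k : ℚ[X]) + 1) := by
  intro n hn
  have hsq : ∀ m : ℕ, ∑ k ∈ range m, (2 * k + 1) = m ^ 2 := by
    intro m
    induction m with
    | zero => rfl
    | succ m ih =>
      rw [Finset.sum_range_succ, ih]
      ring
  refine ⟨?_, ?_, ?_, ?_⟩
  · apply Pf_eq
    rw [skew3 motzkin (Ls 1 1) Mot_eq, pf_Ls]
    simp
  · apply Pf_eq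
    rw [skew3 delannoy (La 2 3) Del_eq]
    obtain ⟨m, rfl⟩ : ∃ m, n = m + 1 := ⟨n - 1, by omega⟩
    rw [pf_La]
    congr 1
    clear hn
    induction m with
    | zero => norm_num
    | succ m ih =>
      rw [Finset.prod_range_succ, ih, Finset.prod_Ico_succ_top (show 1 ≤ m + 1 by omega)]
      have h1 : (2 * (m : ℚ) + 1) ≠ 0 := by positivity
      have e1 : (m + 1 + 1) ^ 2 - 1 = ((m + 1) ^ 2 - 1) + (2 * m + 3) := by
        have : (m + 1 + 1) ^ 2 = (m + 1) ^ 2 + (2 * m + 3) := by ring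
        have h2 : 1 ≤ (m + 1) ^ 2 := Nat.one_le_pow _ _ (by omega)
        omega
      rw [e1, pow_add]
      generalize (m + 1) ^ 2 - 1 = q
      generalize ∏ k ∈ Ico 1 (m + 1), (4 * (k : ℚ) - 1) = P
      push_cast
      have e2 : (2 * ((m : ℚ) + 1) - 1) = 2 * m + 1 := by ring
      rw [e2]
      field_simp
      ring
  · apply Pf_eq
    rw [skew2 schroeder 1 (Lt 2 3) (fun m => by rw [one_mul]; exact Sch_eq m), pfSum_smul, pf_Lt,
      one_pow, one_mul, Finset.prod_mul_distrib, Finset.prod_pow_eq_pow_sum, hsq]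
    ring
  · apply Pf_eq
    rw [skew2 narayana X (Ls X (1 + X)) (fun m => Nar_succ m), pfSum_smul, pf_Ls,
      Finset.prod_mul_distrib, Finset.prod_pow_eq_pow_sum]
    have h2 : (X : ℚ[X]) ^ n * X ^ (∑ k ∈ range n, 2 * k) = X ^ (n ^ 2) := by
      rw [← pow_add, ← hsq n, Finset.sum_add_distrib]
      congr 1
      simp
      ring
    rw [← h2]
    ring

end Pool.Agent.Results.MP_c5a58e_co.PfaffiansH75
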